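import Mathlib
import Pool.Agent.Helper900_VC.Final
import Pool.Agent.Helper900_VC.Numeric

/-!
# A quantitative saving in the Zarankiewicz problem for VC-dimension three

A bipartite graph is given by its finite parts `P` and `Q` and its edge relation `E : P → Q → Prop`.
We show that a bipartite graph with at most `n` vertices in each part, VC-dimension at most `3`,
and no complete bipartite graph with three vertices in `P` and `t` vertices in `Q`, has at most
`C n ^ (5/3) (log log n / log n) ^ (1/6)` edges, where `C` depends only on `t`.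
-/

namespace Pool.Agent.Results.MP_1d6da1_co.LogSaving

/-- The set `S ⊆ P` is shattered: every subset of `S` is the trace on `S` of a neighbourhood
`N(q) = {p | E p q}` of a vertex `q ∈ Q`. -/
def Shattered {P Q : Type} (E : P → Q → Prop) (S : Finset P) : Prop :=
  ∀ S' ⊆ S, ∃ q : Q, ∀ p ∈ S, (E p q ↔ p ∈ S')

/-- The VC-dimension of the bipartite graph is at most `d`: shattered subsets of `P` have at most
`d` elements. -/
def VCDimLe {P Q : Type} (E : P → Q → Prop) (d : ℕ) : Prop :=
  ∀ S : Finset P, Shattered E S → S.card ≤ d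

/-- The bipartite graph contains no complete bipartite graph with `s` vertices in `P` and `t`
vertices in `Q`. -/
def BicliqueFree {P Q : Type} (E : P → Q → Prop) (s t : ℕ) : Prop :=
  ∀ (S : Finset P) (T : Finset Q), S.card = s → T.card = t → ∃ p ∈ S, ∃ q ∈ T, ¬ E p q

open Classical in
/-- The number of edges of the bipartite graph. -/
noncomputable def edgeCount {P Q : Type} [Fintype P] [Fintype Q] (E : P → Q → Prop) : ℕ :=
  (Finset.univ.filter fun z : P × Q => E z.1 z.2).card

open Classical in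
lemma edgeCount_eq {P Q : Type} [Fintype P] [Fintype Q] (E : P → Q → Prop) :
    edgeCount E = ∑ p : P, Helper900VC.dg E p := by
  unfold edgeCount Helper900VC.dg
  rw [Finset.card_filter, ← Finset.univ_product_univ, Finset.sum_product]
  apply Finset.sum_congr rfl
  intro p _
  rw [Finset.card_filter]

/-- For every `t` there is a constant `C` such that every bipartite graph with at most `n ≥ 16`
vertices in each part, with VC-dimension at most `3` and without a complete bipartite graph with
three vertices in `P` and `t` vertices in `Q`, has at most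
`C n ^ (5/3) (log log n / log n) ^ (1/6)` edges. -/
theorem result : ∀ t : ℕ, ∃ C : ℝ, ∀ n : ℕ, 16 ≤ n →
    ∀ (P Q : Type) [Fintype P] [Fintype Q] (E : P → Q → Prop),
      Fintype.card P ≤ n → Fintype.card Q ≤ n → VCDimLe E 3 → BicliqueFree E 3 t →
      (edgeCount E : ℝ) ≤ C * (n : ℝ) ^ ((5 : ℝ) / 3) *
        (Real.log (Real.log n) / Real.log n) ^ ((1 : ℝ) / 6) := by
  classical
  intro t
  obtain ⟨N, hN16, hN⟩ := Helper900VC.numeric' (t + 1) (by omega)
  refine ⟨60 * ((t + 1 : ℕ) : ℝ) + (N : ℝ) ^ 2, ?_⟩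
  intro n hn P Q _ _ E hP hQ hVC hfree
  have hn0 : 0 < n := by omega
  have hnR : (0 : ℝ) < n := by exact_mod_cast hn0
  have hn1 : (1 : ℝ) ≤ n := by exact_mod_cast hn0
  set L : ℝ := Real.log n with hL
  have hL27 : Real.exp 1 ≤ L := by
    have h1 : Real.log 16 ≤ L := by
      apply Real.log_le_log (by norm_num)
      exact_mod_cast hn
    have h2 : Real.log 16 = 4 * Real.log 2 := by
      rw [show (16 : ℝ) = 2 ^ 4 by norm_num, Real.log_pow]; norm_num
    have h3 := Real.log_two_gt_d9
    have h4 := Real.exp_one_lt_d9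
    linarith
  have hL0 : 0 < L := lt_of_lt_of_le (Real.exp_pos 1) hL27
  have hl1 : 1 ≤ Real.log L := by
    rw [Real.le_log_iff_exp_le hL0]
    exact hL27
  have hlL0 : 0 < Real.log L / L := by positivity
  set y : ℝ := (Real.log L / L) ^ ((1 : ℝ) / 6) with hy
  have hy0 : 0 < y := Real.rpow_pos_of_pos hlL0 _
  set v : ℝ := (n : ℝ) ^ ((5 : ℝ) / 3) with hv
  have hv0 : 0 < v := Real.rpow_pos_of_pos hnR _
  have hvy : 1 ≤ v * y := by
    have h1 : (n : ℝ)⁻¹ ≤ y := by
      have h2 : (n : ℝ)⁻¹ ≤ Real.log L / L := by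
        rw [inv_eq_one_div, div_le_div_iff₀ hnR hL0]
        have h3 : L ≤ n := (Real.log_le_sub_one_of_pos hnR).trans (by linarith)
        nlinarith
      have h3 : ((n : ℝ)⁻¹) ^ ((1 : ℝ) / 6) ≤ y := Real.rpow_le_rpow (by positivity) h2 (by norm_num)
      refine le_trans ?_ h3
      have h4 : (n : ℝ)⁻¹ ≤ 1 := inv_le_one_of_one_le₀ hn1
      calc (n : ℝ)⁻¹ = ((n : ℝ)⁻¹) ^ (1 : ℝ) := (Real.rpow_one _).symm
        _ ≤ _ := Real.rpow_le_rpow_of_exponent_ge (by positivity) h4 (by norm_num)
    have h2 : (n : ℝ) ≤ v := by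
      calc (n : ℝ) = (n : ℝ) ^ (1 : ℝ) := (Real.rpow_one _).symm
        _ ≤ v := Real.rpow_le_rpow_of_exponent_le hn1 (by norm_num)
    calc (1 : ℝ) = n * (n : ℝ)⁻¹ := by field_simp
      _ ≤ v * y := mul_le_mul h2 h1 (by positivity) hv0.le
  have hC0 : (0 : ℝ) ≤ 60 * ((t + 1 : ℕ) : ℝ) := by positivity
  by_cases hnN : N ≤ n
  · -- large `n`
    by_contra hcon
    push Not at hcon
    set u : ℝ := (n : ℝ) ^ ((1 : ℝ) / 3) with hu
    have hu0 : 0 < u := Real.rpow_pos_of_pos hnR _
    obtain ⟨j, hd0, he1, hj, hth⟩ := hN n hnN y u (15 * ((t + 1 : ℕ) : ℝ) * y * u ^ 2) _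
      hy hu rfl rfl
    have hvu : v = n * u ^ 2 := by
      rw [hv, hu, ← Real.rpow_natCast, ← Real.rpow_mul hnR.le]
      nth_rewrite 2 [← Real.rpow_one (n : ℝ)]
      rw [← Real.rpow_add hnR]
      norm_num
    refine Helper900VC.core E (t + 1) n j (15 * ((t + 1 : ℕ) : ℝ) * y * u ^ 2) _ (by omega) hn0
      hP hQ ?_ ?_ hd0 he1 rfl hj hth ?_
    · intro a b c hab hac hbc
      by_contra hge
      push Not at hge
      obtain ⟨T, hT1, hT2⟩ := Finset.exists_subset_card_eq (Nat.le_of_succ_le hge)
      obtain ⟨p, hp, q, hq, hpq⟩ := hfree {a, b, c} T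
        (Finset.card_eq_three.2 ⟨a, b, c, hab, hac, hbc, rfl⟩) hT2
      have h1 := (Finset.mem_filter.1 (hT1 hq)).2
      simp only [Finset.mem_insert, Finset.mem_singleton] at hp
      rcases hp with rfl | rfl | rfl
      · exact hpq h1.1
      · exact hpq h1.2.1
      · exact hpq h1.2.2
    · intro S hS hsh
      have := hVC S hsh
      omega
    · have h1 : (edgeCount E : ℝ) = ∑ p : P, (Helper900VC.dg E p : ℝ) := by
        rw [edgeCount_eq]
        push_cast
        rfl
      rw [← h1]
      refine le_trans ?_ hcon.le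
      have h2 : 4 * (n : ℝ) * (15 * ((t + 1 : ℕ) : ℝ) * y * u ^ 2) =
          60 * ((t + 1 : ℕ) : ℝ) * v * y := by
        rw [hvu]; ring
      rw [h2]
      have h3 : 60 * ((t + 1 : ℕ) : ℝ) * (v * y) ≤
          (60 * ((t + 1 : ℕ) : ℝ) + (N : ℝ) ^ 2) * (v * y) := by
        apply mul_le_mul_of_nonneg_right _ (by positivity)
        have : (0 : ℝ) ≤ (N : ℝ) ^ 2 := by positivity
        linarith
      linarith
  · -- small `n`
    push Not at hnN
    have h1 : (edgeCount E : ℝ) ≤ (N : ℝ) ^ 2 := by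
      have h2 : edgeCount E ≤ N ^ 2 := by
        unfold edgeCount
        refine (Finset.card_filter_le _ _).trans ?_
        rw [Finset.card_univ, Fintype.card_prod, sq]
        exact Nat.mul_le_mul (hP.trans hnN.le) (hQ.trans hnN.le)
      exact_mod_cast h2
    have h3 : (N : ℝ) ^ 2 * 1 ≤ (60 * ((t + 1 : ℕ) : ℝ) + (N : ℝ) ^ 2) * (v * y) := by
      apply mul_le_mul _ hvy (by norm_num) (by positivity)
      linarith
    linarith

end Pool.Agent.Results.MP_1d6da1_co.LogSaving
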